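import Pool.Agent.TH690.GU.Main
import Pool.Agent.TH690.GU.Wt
import Pool.Agent.W24.CP.SC

/-! Sums of `e(θ√n + P(n))`, uniformly over the real polynomials of bounded degree, alone and against
multiplicative functions. -/

set_option autoImplicit false

namespace Pool.Agent.TH690.PP

open Finset Filter Topology Pool.Agent.Helper153.Vdc Pool.Agent.TH690.GU
open Pool.Agent.W24.Katai (Mul1 cor)
open Pool.Agent.W24.CP

/-- a polynomial of degree less than `k` -/
noncomputable def pv (c : ℕ → ℝ) (k : ℕ) (x : ℝ) : ℝ := ∑ i ∈ range k, c i * x ^ i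

theorem pv_add (c c' : ℕ → ℝ) (k : ℕ) (x : ℝ) : pv (fun i => c i + c' i) k x = pv c k x + pv c' k x := by
  unfold pv
  rw [← sum_add_distrib]
  exact sum_congr rfl fun i _ => by ring

theorem pv_smul (r : ℝ) (c : ℕ → ℝ) (k : ℕ) (x : ℝ) : pv (fun i => r * c i) k x = r * pv c k x := by
  unfold pv
  rw [mul_sum]
  exact sum_congr rfl fun i _ => by ring

theorem pv_diff (t : ℝ) : ∀ (k : ℕ) (c : ℕ → ℝ), ∃ c' : ℕ → ℝ, ∀ x, pv c (k + 1) (x + t) - pv c (k + 1) x = pv c' k x := by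
  intro k
  induction k with
  | zero =>
    intro c
    exact ⟨c, fun x => by simp [pv]⟩
  | succ k ih =>
    intro c
    obtain ⟨c1, h1⟩ := ih c
    refine ⟨fun i => (if i < k then c1 i else 0) + c (k + 1) * (t ^ (k + 1 - i) * ((k + 1).choose i : ℝ)), fun x => ?_⟩
    rw [pv_add, pv_smul]
    have e1 : ∀ y, pv c (k + 1 + 1) y = pv c (k + 1) y + c (k + 1) * y ^ (k + 1) := fun y => by
      unfold pv; rw [sum_range_succ]
    have e2 : pv (fun i => if i < k then c1 i else 0) (k + 1) x = pv c1 k x := by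
      unfold pv
      rw [sum_range_succ]
      beta_reduce
      rw [if_neg (lt_irrefl k), zero_mul, add_zero]
      apply sum_congr rfl; intro i hi
      rw [if_pos (mem_range.1 hi)]
    have e3 : (x + t) ^ (k + 1) = pv (fun i => t ^ (k + 1 - i) * ((k + 1).choose i : ℝ)) (k + 1) x + x ^ (k + 1) := by
      unfold pv
      rw [add_pow, sum_range_succ]
      congr 1
      · apply sum_congr rfl; intro i _; ring
      · simp
    rw [e1, e1, e2, e3, ← h1]
    ring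

theorem norm_sq_sum (S : Finset ℤ) (z : ℤ → ℂ) (X : ℕ) (hS : S ⊆ Icc (1 : ℤ) X) :
    ‖∑ n ∈ S, z n‖ ^ 2 ≤ ∑ t ∈ Icc (-(X : ℤ)) X, ‖∑ n ∈ S.filter (fun n => n + t ∈ S), z (n + t) * (starRingEnd ℂ) (z n)‖ := by
  have e1 : ((‖∑ n ∈ S, z n‖ ^ 2 : ℝ) : ℂ) = ∑ t ∈ Icc (-(X : ℤ)) X, ∑ n ∈ S.filter (fun n => n + t ∈ S), z (n + t) * (starRingEnd ℂ) (z n) := by
    rw [Complex.ofReal_pow, ← Complex.mul_conj', map_sum, Finset.sum_mul_sum, sum_comm]
    have e2 : ∀ n ∈ S, ∑ m ∈ S, z m * (starRingEnd ℂ) (z n) =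
        ∑ t ∈ Icc (-(X : ℤ)) X, (if n + t ∈ S then z (n + t) * (starRingEnd ℂ) (z n) else 0) := by
      intro n hn
      have hn' := mem_Icc.1 (hS hn)
      rw [← sum_filter]
      apply Finset.sum_nbij' (fun m => m - n) (fun t => n + t)
      · intro m hm
        have hm' := mem_Icc.1 (hS hm)
        rw [mem_filter, mem_Icc]
        refine ⟨⟨by omega, by omega⟩, ?_⟩
        rw [add_sub_cancel]; exact hm
      · intro t ht
        exact (mem_filter.1 ht).2
      · intro m _; ring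
      · intro t _; ring
      · intro m _; rw [add_sub_cancel]
    rw [sum_congr rfl e2, sum_comm]
    apply sum_congr rfl; intro t _
    rw [sum_filter]
  have e3 : ‖∑ n ∈ S, z n‖ ^ 2 = ‖((‖∑ n ∈ S, z n‖ ^ 2 : ℝ) : ℂ)‖ := by
    rw [Complex.norm_real, Real.norm_of_nonneg (by positivity)]
  rw [e3, e1]
  exact norm_sum_le _ _

theorem ee_add (x y : ℝ) : ee (x + y) = ee x * ee y := by
  unfold ee
  rw [← Complex.exp_add]
  congr 1; push_cast; ring

/-- sums with the phases `θ DD √ + P` -/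
theorem poly_base {θ : ℝ} (hθ : θ ≠ 0) : ∀ (k j : ℕ) {δ : ℝ}, 0 < δ → ∀ {ε : ℝ}, 0 < ε →
    ∃ X0 : ℕ, ∀ X : ℕ, X0 ≤ X → ∀ hs : List ℤ, hs.length = j →
      (∀ h ∈ hs, δ * X ≤ |(h : ℝ)| ∧ |(h : ℝ)| ≤ X) → ∀ a b : ℝ, δ * X ≤ a → b ≤ X → ∀ c : ℕ → ℝ,
      ∀ S : Finset ℤ, (∀ n, n ∈ S ↔ In a b hs n) →
      ‖∑ n ∈ S, ee (θ * DD hs Real.sqrt n + pv c (k + 1) n)‖ ≤ ε * X := by
  intro k
  induction k with
  | zero =>
    intro j δ hδ ε hε
    obtain ⟨X0, h⟩ := base hθ hδ j hε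
    refine ⟨X0, fun X hX hs hj hh a b ha hb c S hS => ?_⟩
    have h1 := h X hX hs hj hh a b ha hb S hS
    have e1 : ∑ n ∈ S, ee (θ * DD hs Real.sqrt n + pv c (0 + 1) n) = (∑ n ∈ S, ee (θ * DD hs Real.sqrt n)) * ee (c 0) := by
      rw [sum_mul]
      apply sum_congr rfl; intro n _
      rw [ee_add]
      congr 2
      simp [pv]
    rw [e1, norm_mul, ee_norm, mul_one]
    exact h1
  | succ k ih =>
    intro j δ hδ ε hε
    set ε' : ℝ := ε ^ 2 / 6 with hε'
    set δ' : ℝ := min δ (ε ^ 2 / 6) with hδ'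
    have hε'0 : 0 < ε' := by positivity
    have hδ'0 : 0 < δ' := lt_min hδ (by positivity)
    obtain ⟨X0, h⟩ := ih (j + 1) hδ'0 hε'0
    obtain ⟨X1, hX1⟩ := exists_nat_ge (1 / δ')
    refine ⟨X0 + X1 + 1, fun X hX hs hj hh a b ha hb c S hS => ?_⟩
    have hX1' : 1 ≤ X := by omega
    have hXp : (0 : ℝ) < X := by exact_mod_cast (by omega : 0 < X)
    have hXδ : 1 ≤ δ' * X := by
      rw [div_le_iff₀ hδ'0] at hX1
      have : (X1 : ℝ) ≤ X := by exact_mod_cast (by omega : X1 ≤ X)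
      nlinarith
    have hδδ : δ' * X ≤ δ * X := mul_le_mul_of_nonneg_right (min_le_left _ _) hXp.le
    have hSI : S ⊆ Icc (1 : ℤ) X := by
      intro n hn
      have h1 := ((hS n).1 hn).base
      rw [mem_Icc]
      constructor
      · have : (0 : ℝ) < n := lt_of_lt_of_le (by positivity) (ha.trans h1.1)
        have : 0 < n := by exact_mod_cast this
        omega
      · exact_mod_cast h1.2.trans hb
    have hSc : (S.card : ℝ) ≤ X := by
      have h1 := card_le_card hSI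
      rw [Int.card_Icc] at h1
      have h2 : ((X : ℤ) + 1 - 1).toNat = X := by omega
      rw [h2] at h1
      exact_mod_cast h1
    have hsq := norm_sq_sum S (fun n => ee (θ * DD hs Real.sqrt n + pv c (k + 1 + 1) n)) X hSI
    have key : ∀ t ∈ Icc (-(X : ℤ)) X, ‖∑ n ∈ S.filter (fun n => n + t ∈ S),
        ee (θ * DD hs Real.sqrt ((n + t : ℤ) : ℝ) + pv c (k + 1 + 1) ((n + t : ℤ) : ℝ)) *
          (starRingEnd ℂ) (ee (θ * DD hs Real.sqrt n + pv c (k + 1 + 1) n))‖ ≤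
        (if |(t : ℝ)| < δ' * X then (X : ℝ) else 0) + ε' * X := by
      intro t ht
      by_cases htt : |(t : ℝ)| < δ' * X
      · rw [if_pos htt]
        refine (norm_sum_le _ _).trans ?_
        have h1 : ∀ n ∈ S.filter (fun n => n + t ∈ S), ‖ee (θ * DD hs Real.sqrt ((n + t : ℤ) : ℝ) + pv c (k + 1 + 1) ((n + t : ℤ) : ℝ)) *
          (starRingEnd ℂ) (ee (θ * DD hs Real.sqrt n + pv c (k + 1 + 1) n))‖ ≤ 1 := by
          intro n _
          rw [norm_mul, RCLike.norm_conj, ee_norm, ee_norm, mul_one]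
        refine (sum_le_card_nsmul _ _ _ h1).trans ?_
        rw [nsmul_eq_mul, mul_one]
        have h2 : ((S.filter (fun n => n + t ∈ S)).card : ℝ) ≤ S.card := by exact_mod_cast card_filter_le _ _
        have h3 : 0 ≤ ε' * X := by positivity
        linarith
      · rw [if_neg htt, zero_add]
        push Not at htt
        obtain ⟨c', hc'⟩ := pv_diff (t : ℝ) (k + 1) c
        have h1 := h X (by omega) (t :: hs) (by simp [hj]) (by
          intro x hx
          rcases List.mem_cons.1 hx with rfl | hx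
          · refine ⟨htt, ?_⟩
            rw [mem_Icc] at ht
            rw [abs_le]
            constructor
            · exact_mod_cast ht.1
            · exact_mod_cast ht.2
          · exact ⟨hδδ.trans (hh x hx).1, (hh x hx).2⟩) a b (hδδ.trans ha) hb c' (S.filter (fun n => n + t ∈ S)) (by
          intro n
          rw [mem_filter, hS, hS]
          show _ ↔ In a b hs n ∧ In a b hs ((n : ℝ) + t)
          push_cast
          exact Iff.rfl)
        refine le_trans (le_of_eq ?_) h1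
        congr 1
        apply sum_congr rfl; intro n _
        rw [ee_mul_conj]
        congr 1
        rw [← hc']
        show _ = θ * (DD hs Real.sqrt ((n : ℝ) + t) - DD hs Real.sqrt n) + _
        push_cast
        ring
    have hfin : ‖∑ n ∈ S, ee (θ * DD hs Real.sqrt n + pv c (k + 1 + 1) n)‖ ^ 2 ≤ (ε * X) ^ 2 := by
      refine hsq.trans ((sum_le_sum key).trans ?_)
      rw [sum_add_distrib, ← sum_filter, sum_const, sum_const, nsmul_eq_mul, nsmul_eq_mul]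
      have c1 := card_small hXδ
      have c2 := card_IX hX1'
      have hd : δ' ≤ ε ^ 2 / 6 := min_le_right _ _
      calc _ ≤ (3 * δ' * X) * (X : ℝ) + (3 * X) * (ε' * X) :=
            add_le_add (mul_le_mul_of_nonneg_right c1 (by positivity)) (mul_le_mul_of_nonneg_right c2 (by positivity))
        _ = (3 * δ' + 3 * ε') * (X : ℝ) ^ 2 := by ring
        _ ≤ ε ^ 2 * (X : ℝ) ^ 2 := mul_le_mul_of_nonneg_right (by rw [hε']; linarith) (by positivity)
        _ = _ := by ring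
    exact (abs_le_of_sq_le_sq' hfin (by positivity)).2

/-- complete sums -/
theorem poly_sum {θ : ℝ} (hθ : θ ≠ 0) (k : ℕ) {η : ℝ} (hη : 0 < η) : ∃ K : ℕ, ∀ (c : ℕ → ℝ) (M : ℕ),
    ‖∑ m ∈ Ioc 0 M, ee (θ * √(m : ℝ) + pv c (k + 1) m)‖ ≤ η * M + K := by
  obtain ⟨X0, h⟩ := poly_base hθ k 0 (δ := η / 2) (by positivity) (ε := η / 2) (by positivity)
  refine ⟨X0 + 1, fun c M => ?_⟩
  have hM0 : (0 : ℝ) ≤ M := Nat.cast_nonneg _
  have htriv : ‖∑ m ∈ Ioc 0 M, ee (θ * √(m : ℝ) + pv c (k + 1) m)‖ ≤ M := by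
    refine (norm_sum_le _ _).trans ?_
    simp only [ee_norm, sum_const, Nat.card_Ioc, Nat.sub_zero, nsmul_eq_mul, mul_one, le_refl]
  rcases lt_or_ge M (X0 + 1) with hM | hM
  · have h1 : (M : ℝ) ≤ ((X0 + 1 : ℕ) : ℝ) := by exact_mod_cast hM.le
    have h2 : 0 ≤ η * M := by positivity
    linarith
  classical
  have hM1 : (0 : ℝ) < M := by exact_mod_cast (by omega : 0 < M)
  have h1 := h M (by omega) [] rfl (by simp) (η / 2 * M) M le_rfl le_rfl c
    ((Icc (1 : ℤ) M).filter (fun n : ℤ => η / 2 * M ≤ (n : ℝ))) (by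
    intro n
    rw [mem_filter, mem_Icc]
    show _ ↔ η / 2 * M ≤ (n : ℝ) ∧ (n : ℝ) ≤ M
    constructor
    · rintro ⟨⟨a1, a2⟩, a3⟩
      exact ⟨a3, by exact_mod_cast a2⟩
    · rintro ⟨a1, a2⟩
      have h3 : (0 : ℝ) < n := lt_of_lt_of_le (by positivity) a1
      have h4 : 0 < n := by exact_mod_cast h3
      exact ⟨⟨by omega, by exact_mod_cast a2⟩, a1⟩)
  have e1 : ∑ m ∈ Ioc 0 M, ee (θ * √(m : ℝ) + pv c (k + 1) m) = ∑ n ∈ Icc (1 : ℤ) M, ee (θ * √(n : ℝ) + pv c (k + 1) n) := by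
    apply Finset.sum_nbij' (fun m : ℕ => (m : ℤ)) (fun n : ℤ => n.toNat)
    · intro m hm; rw [mem_Ioc] at hm; rw [mem_Icc]; omega
    · intro n hn; rw [mem_Icc] at hn; rw [mem_Ioc]; omega
    · intro m _; simp
    · intro n hn; rw [mem_Icc] at hn; exact Int.toNat_of_nonneg (by omega)
    · intro m _; push_cast; rfl
  rw [e1, ← sum_filter_add_sum_filter_not _ (fun n : ℤ => η / 2 * M ≤ (n : ℝ))]
  refine (norm_add_le _ _).trans ?_
  have h5 : ‖∑ n ∈ (Icc (1 : ℤ) M).filter (fun n : ℤ => ¬ η / 2 * M ≤ (n : ℝ)), ee (θ * √(n : ℝ) + pv c (k + 1) n)‖ ≤ η / 2 * M := by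
    refine (norm_sum_le _ _).trans ?_
    simp only [ee_norm, sum_const, nsmul_eq_mul, mul_one]
    have h6 : (Icc (1 : ℤ) M).filter (fun n : ℤ => ¬ η / 2 * M ≤ (n : ℝ)) ⊆ Icc (1 : ℤ) ⌊η / 2 * M⌋₊ := by
      intro n hn
      rw [mem_filter, mem_Icc] at hn
      rw [mem_Icc]
      refine ⟨hn.1.1, ?_⟩
      have h7 : ((n.toNat : ℕ) : ℝ) ≤ η / 2 * M := by
        have h8 : ((n.toNat : ℕ) : ℝ) = (n : ℝ) := by
          have : ((n.toNat : ℤ) : ℝ) = (n : ℝ) := by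
            exact_mod_cast Int.toNat_of_nonneg (by omega)
          exact_mod_cast this
        rw [h8]; push Not at hn; exact hn.2.le
      have h8 := Nat.le_floor h7
      omega
    have h7 := card_le_card h6
    rw [Int.card_Icc] at h7
    have h8 : ((⌊η / 2 * M⌋₊ : ℤ) + 1 - 1).toNat = ⌊η / 2 * M⌋₊ := by omega
    rw [h8] at h7
    have h9 : (((Icc (1 : ℤ) M).filter (fun n : ℤ => ¬ η / 2 * M ≤ (n : ℝ))).card : ℝ) ≤ (⌊η / 2 * M⌋₊ : ℝ) := by
      exact_mod_cast h7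
    exact h9.trans (Nat.floor_le (by positivity))
  have h6 : ‖∑ n ∈ (Icc (1 : ℤ) M).filter (fun n : ℤ => η / 2 * M ≤ (n : ℝ)), ee (θ * √(n : ℝ) + pv c (k + 1) n)‖ ≤ η / 2 * M := h1
  have h7 : (0 : ℝ) ≤ ((X0 + 1 : ℕ) : ℝ) := Nat.cast_nonneg _
  linarith

/-- the family of the functions `e(θ√n + P(n))`, `θ` fixed, `deg P ≤ k` -/
def PFam (k : ℕ) (θ : ℝ) : Set (ℕ → ℂ) := {F | ∃ c : ℕ → ℝ, F = fun n : ℕ => ee (θ * √(n:ℝ) + pv c (k + 1) n)}

/-- sums against multiplicative functions -/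
theorem mult_poly {θ : ℝ} (hθ : θ ≠ 0) (k : ℕ) {ε : ℝ} (hε : 0 < ε) :
    ∃ N0 : ℕ, ∀ N : ℕ, N0 ≤ N → ∀ c : ℕ → ℝ, ∀ g : ℕ → ℂ, Mul1 g →
      ‖∑ n ∈ Ioc 0 N, g n * ee (θ * √(n:ℝ) + pv c (k + 1) n)‖ ≤ ε * N := by
  obtain ⟨N0, h⟩ := SK.katai_fam (FF := PFam k θ) (by
      rintro F ⟨c, rfl⟩ n
      exact (ee_norm _).le) (by
      intro p q hp hq hne η hη
      have hpq : θ * (√(p:ℝ) - √(q:ℝ)) ≠ 0 := by
        apply mul_ne_zero hθ
        rw [sub_ne_zero]
        intro h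
        have h1 : (p:ℝ) = q := by
          have := congrArg (fun x => x^2) h
          simp only [Real.sq_sqrt (Nat.cast_nonneg p), Real.sq_sqrt (Nat.cast_nonneg q)] at this
          exact this
        exact hne (by exact_mod_cast h1)
      obtain ⟨K, hK⟩ := poly_sum hpq k hη
      refine ⟨K, ?_⟩
      rintro F ⟨c, rfl⟩ M
      have e1 : cor (fun n : ℕ => ee (θ * √(n:ℝ) + pv c (k + 1) n)) p q M =
          ∑ m ∈ Ioc 0 M, ee ((θ * (√(p:ℝ) - √(q:ℝ))) * √(m:ℝ) + pv (fun i => c i * ((p : ℝ) ^ i - (q : ℝ) ^ i)) (k + 1) m) := by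
        unfold cor
        apply sum_congr rfl; intro m _
        rw [ee_mul_conj]
        congr 1
        have e2 : pv (fun i => c i * ((p : ℝ) ^ i - (q : ℝ) ^ i)) (k + 1) (m : ℝ) =
            pv c (k + 1) (((p * m : ℕ) : ℝ)) - pv c (k + 1) (((q * m : ℕ) : ℝ)) := by
          unfold pv
          rw [← sum_sub_distrib]
          apply sum_congr rfl; intro i _
          push_cast
          rw [mul_pow, mul_pow]; ring
        rw [e2]
        push_cast
        rw [Real.sqrt_mul (Nat.cast_nonneg p), Real.sqrt_mul (Nat.cast_nonneg q)]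
        ring
      rw [e1]
      exact hK _ M) hε
  exact ⟨N0, fun N hN c g hg => h N hN _ ⟨c, rfl⟩ g hg⟩

/-- the weights -/
def VPoly (k : ℕ) (_ : ℕ) : Set (ℕ → ℂ) := {v | ∃ g : ℕ → ℂ, Mul1 g ∧ ∃ c : ℕ → ℝ, v = fun n : ℕ => g n * ee (pv c (k + 1) n)}

theorem VPoly_bd (k j : ℕ) (v : ℕ → ℂ) (hv : v ∈ VPoly k j) (n : ℕ) : ‖v n‖ ≤ 1 := by
  obtain ⟨g, hg, c, rfl⟩ := hv
  rw [norm_mul, ee_norm, mul_one]
  exact hg.1 n

open Pool.Agent.H425R3.JL (cav fav ApU q)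
open Pool.Agent.W24.CP.SL (chS AvS TS)
open Pool.Agent.W24.CP.SU

theorem VPoly_or (k : ℕ) (θ : ℝ) (hθ : θ ≠ 0) (η : ℝ) (hη : 0 < η) : ∃ j0 : ℕ, ∀ j, j0 ≤ j → ∀ v ∈ VPoly k j,
    ‖cav (SI j) (fun n => v n * chS θ n)‖ ≤ η := by
  obtain ⟨N0, h⟩ := mult_poly hθ k hη
  refine ⟨N0, fun j hj v hv => ?_⟩
  obtain ⟨g, hg, c, rfl⟩ := hv
  have h1 := h (j + 1) (by omega) c g hg
  unfold cav
  rw [norm_div, Complex.norm_natCast, SI_card, div_le_iff₀ (by positivity)]
  refine le_trans (le_of_eq ?_) h1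
  congr 1
  unfold SI
  have : Icc 1 (j + 1) = Ioc 0 (j + 1) := by ext x; simp only [mem_Icc, mem_Ioc]; omega
  rw [this]
  apply sum_congr rfl; intro n _
  show (g n * ee (pv c (k + 1) n)) * chS θ n = _
  unfold chS
  rw [mul_assoc, e_ee, ← ee_add, add_comm (pv c (k + 1) (n:ℝ))]

end Pool.Agent.TH690.PP
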